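import Pool.Agent.H619R2.QP.Final
import Pool.Agent.H642R2.TMSim

/-!
# Recognising outer `k`-quasi-planar graphs is NP-hard for every fixed `k ≥ 11`

A graph is outer `k`-quasi-planar if its vertices can be placed on a circle so that no `k` edges
cross pairwise.  The reduction is from 3SAT.

The graph consists of a hub `W` of `k - 1` vertices and many copies of a gadget.  The blocks of a
copy are cliques of `k - 2` vertices, consecutive blocks are joined in such a way that windows of
`k` vertices form cliques, and all block vertices are adjacent to the hub.  In a drawing without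
`k` pairwise crossing edges some copy lies between two consecutive vertices of the hub; then its
blocks are laid out in their natural order, no edge of the copy passes over `k - 1` block vertices
and no two crossing edges of the copy pass over `k - 2` common block vertices.  Between any two
consecutive blocks there is a level of a bus, and each level is the mirror image of the previous
one.  The order of the bus encodes the assignment (a variable is true if it is in front of the
dummies) and the edges from a level to the next block test one clause.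
-/

namespace Pool.Agent.Results.MP_3c8dce_lc.QuasiHard

open Pool.Agent.NPC Pool.Agent.NPC.H634R2 Pool.Agent.H619R2.QP

/-- The edges `e` and `f` cross when the vertices are placed on a circle, in the order given by
`pos`: they have four different endpoints, which alternate. -/
def Crosses (pos : ℕ → ℕ) (e f : ℕ × ℕ) : Prop :=
  (min (pos e.1) (pos e.2) < min (pos f.1) (pos f.2) ∧
    min (pos f.1) (pos f.2) < max (pos e.1) (pos e.2) ∧
    max (pos e.1) (pos e.2) < max (pos f.1) (pos f.2)) ∨
  (min (pos f.1) (pos f.2) < min (pos e.1) (pos e.2) ∧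
    min (pos e.1) (pos e.2) < max (pos f.1) (pos f.2) ∧
    max (pos f.1) (pos f.2) < max (pos e.1) (pos e.2))

/-- The graph with the vertices `V` and the edges `E` is outer `k`-quasi-planar: its vertices have
an order on a circle for which no `k` edges cross pairwise. -/
def OuterQuasiPlanar (k : ℕ) (V : List ℕ) (E : List (ℕ × ℕ)) : Prop :=
  ∃ pos : ℕ → ℕ, (∀ u ∈ V, ∀ v ∈ V, pos u = pos v → u = v) ∧
    ¬ ∃ S : Finset (ℕ × ℕ), S.card = k ∧ (∀ e ∈ S, e ∈ E) ∧
      ∀ e ∈ S, ∀ f ∈ S, e ≠ f → Crosses pos e f

/-- The recognition problem: the input is a finite simple graph. -/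
def Recognition (k : ℕ) (G : List ℕ × List (ℕ × ℕ)) : Prop :=
  IsGraph G.1 G.2 ∧ OuterQuasiPlanar k G.1 G.2

theorem outer_iff {k : ℕ} {V : List ℕ} {E : List (ℕ × ℕ)} : OuterQuasiPlanar k V E ↔
    ∃ pos : ℕ → ℕ, (∀ u ∈ V, ∀ v ∈ V, pos u = pos v → u = v) ∧ NoTwist k E pos := Iff.rfl

theorem hardPr_recognition {k : ℕ} (hk : 11 ≤ k) :
    HardPr (fun G : List ℕ × List (ℕ × ℕ) => IsGraph G.1 G.2)
      (fun G => OuterQuasiPlanar k G.1 G.2) := by
  obtain ⟨P, rfl⟩ : ∃ P, k = P + 2 := ⟨k - 2, by omega⟩
  have hP : 9 ≤ P := by omega
  refine hardPr.trans (f := gr P ((P + 2) * (2 * (P + 1)) + 1)) (poly_gr _ _)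
    (fun φ _ => gr_isGraph hP) (fun φ hφ => ?_)
  obtain ⟨hd, hs⟩ := hφ
  rw [outer_iff]
  constructor
  · exact gr_complete hP hd hs
  · rintro ⟨pos, hinj, hnt⟩
    exact gr_sound hP (by omega) hd hs hinj hnt

theorem hard_recognition {k : ℕ} (hk : 11 ≤ k) : NPHardP (Recognition k) := by
  have h : HardPr (fun _ => True) (Recognition k) := by
    intro L hL
    obtain ⟨f, hf, hpr, hL⟩ := hardPr_recognition hk L hL
    refine ⟨f, hf, fun _ => trivial, fun x => ?_⟩
    rw [hL x]
    exact ⟨fun h => ⟨hpr x, h⟩, fun h => h.2⟩
  exact h.toHardI.toNPHardP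

/-- **For every fixed `k ≥ 11` it is NP-hard to decide whether a graph is outer
`k`-quasi-planar**, and a polynomial-time algorithm which decides this for all graphs exists only
if `P = NP`. -/
theorem result (k : ℕ) (hk : 11 ≤ k) :
    NPHardP (Recognition k) ∧
    ((∃ F : List Bool → List Bool, PolyTime F ∧
        ∀ (V : List ℕ) (E : List (ℕ × ℕ)), IsGraph V E →
          (F (bits (V, E)) = [true] ↔ OuterQuasiPlanar k V E)) →
      ∀ L : Set (List Bool), InNP L → InP L) := by
  refine ⟨hard_recognition hk, ?_⟩
  rintro ⟨F, hF, hdec⟩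
  intro L hL
  obtain ⟨f, hf, hpr, hL⟩ := hardPr_recognition hk L hL
  refine ⟨fun x => F (bits (f x)), ?_, fun x => ?_⟩
  · have h1 : PC (fun x : List Bool => x) (fun x : List Bool => x) (fun x => bits (f x)) := hf
    exact PC.toPolyTime (PC.comp (g := F) (f := fun x => bits (f x))
      (H642R2.TMSim.polyTime_toPC hF) h1)
  · rw [hL x]
    exact (hdec (f x).1 (f x).2 (hpr x)).symm

end Pool.Agent.Results.MP_3c8dce_lc.QuasiHard
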